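import Pool.Agent.W809.FKM.Stms

set_option autoImplicit false

open Filter Topology

namespace W54.FKM

open Pool.Agent.W809.FKM (Nuc S_KATO)

variable {E : Type} [NormedAddCommGroup E] [InnerProductSpace ℂ E]

/-- tail of the Fourier coefficients -/
noncomputable def tl (e : ℕ → E) (y : E) (M : ℕ) : ℝ :=
  Real.sqrt (∑' k, ‖inner ℂ (e (k + M)) y‖ ^ 2)

lemma ortho_shift {e : ℕ → E} (he : Orthonormal ℂ e) (M : ℕ) :
    Orthonormal ℂ (fun k => e (k + M)) := he.comp _ (add_left_injective M)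

lemma tl_nonneg (e : ℕ → E) (y : E) (M : ℕ) : 0 ≤ tl e y M := Real.sqrt_nonneg _

lemma tl_le {e : ℕ → E} (he : Orthonormal ℂ e) (y : E) (M : ℕ) : tl e y M ≤ ‖y‖ :=
  (Real.sqrt_le_sqrt ((ortho_shift he M).tsum_inner_products_le (x := y))).trans
    (Real.sqrt_sq (norm_nonneg y)).le

lemma tl_tendsto (e : ℕ → E) (y : E) : Tendsto (tl e y) atTop (𝓝 0) := by
  have h1 := tendsto_sum_nat_add (fun k => ‖inner ℂ (e k) y‖ ^ 2)
  have h2 := (Real.continuous_sqrt.tendsto 0).comp h1
  rw [Real.sqrt_zero] at h2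
  exact h2

lemma sum_sq_le {e : ℕ → E} (he : Orthonormal ℂ e) (y : E) {M c : ℕ} (s : Finset ℕ)
    (hs : ∀ k ∈ s, M ≤ k + c) : Real.sqrt (∑ k ∈ s, ‖inner ℂ (e (k + c)) y‖ ^ 2) ≤ tl e y M := by
  classical
  unfold tl
  refine Real.sqrt_le_sqrt ?_
  have h1 : ∑ k ∈ s, ‖inner ℂ (e (k + c)) y‖ ^ 2 =
      ∑ l ∈ s.image (fun k => k + c - M), ‖inner ℂ (e (l + M)) y‖ ^ 2 := by
    rw [Finset.sum_image]
    · refine Finset.sum_congr rfl fun k hk => ?_
      rw [Nat.sub_add_cancel (hs k hk)]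
    · intro a ha b hb hab
      have h1 := hs a ha
      have h2 := hs b hb
      simp only at hab
      omega
  rw [h1]
  exact ((ortho_shift he M).inner_products_summable (x := y)).sum_le_tsum _
    fun _ _ => by positivity


/-- the basic estimate -/
lemma est {K : E →L[ℂ] E} {ι : Type} {φ ψ : ι → E} (hs : Summable fun j => ‖φ j‖ * ‖ψ j‖)
    (hK : ∀ x, HasSum (fun j => inner ℂ (ψ j) x • φ j) (K x)) {e g : ℕ → E}
    (he : Orthonormal ℂ e) (hg : Orthonormal ℂ g) {M c : ℕ} (s : Finset ℕ)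
    (hsM : ∀ k ∈ s, M ≤ k + c) :
    ∑ k ∈ s, ‖inner ℂ (g k) (K (e (k + c)))‖ ≤ ∑' j, ‖φ j‖ * tl e (ψ j) M := by
  have hterm : ∀ k j, ‖inner ℂ (ψ j) (e (k + c))‖ * ‖inner ℂ (g k) (φ j)‖ ≤ ‖φ j‖ * ‖ψ j‖ := by
    intro k j
    have h1 := norm_inner_le_norm (𝕜 := ℂ) (ψ j) (e (k + c))
    have h2 := norm_inner_le_norm (𝕜 := ℂ) (g k) (φ j)
    rw [he.1, mul_one] at h1
    rw [hg.1, one_mul] at h2
    calc _ ≤ ‖ψ j‖ * ‖φ j‖ := mul_le_mul h1 h2 (norm_nonneg _) (norm_nonneg _)
      _ = _ := mul_comm _ _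
  have hsk : ∀ k, Summable fun j => ‖inner ℂ (ψ j) (e (k + c))‖ * ‖inner ℂ (g k) (φ j)‖ :=
    fun k => Summable.of_nonneg_of_le (fun j => by positivity) (hterm k) hs
  have h1 : ∀ k, ‖inner ℂ (g k) (K (e (k + c)))‖ ≤
      ∑' j, ‖inner ℂ (ψ j) (e (k + c))‖ * ‖inner ℂ (g k) (φ j)‖ := by
    intro k
    have h2 := (hK (e (k + c))).mapL (innerSL ℂ (g k))
    have h3 : ∀ j, (innerSL ℂ (g k)) (inner ℂ (ψ j) (e (k + c)) • φ j) =
        inner ℂ (ψ j) (e (k + c)) * inner ℂ (g k) (φ j) := by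
      intro j
      rw [map_smul, smul_eq_mul]
      rfl
    simp only [h3] at h2
    have h4 : inner ℂ (g k) (K (e (k + c))) =
        ∑' j, inner ℂ (ψ j) (e (k + c)) * inner ℂ (g k) (φ j) := h2.tsum_eq.symm
    rw [h4]
    have h5 := hsk k
    simp only [← norm_mul] at h5 ⊢
    exact norm_tsum_le_tsum_norm h5
  have hb : ∀ j, ‖φ j‖ * tl e (ψ j) M ≤ ‖φ j‖ * ‖ψ j‖ := fun j =>
    mul_le_mul_of_nonneg_left (tl_le he _ _) (norm_nonneg _)
  have hsb : Summable fun j => ‖φ j‖ * tl e (ψ j) M :=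
    Summable.of_nonneg_of_le (fun j => mul_nonneg (norm_nonneg _) (tl_nonneg _ _ _)) hb hs
  calc ∑ k ∈ s, ‖inner ℂ (g k) (K (e (k + c)))‖ ≤
      ∑ k ∈ s, ∑' j, ‖inner ℂ (ψ j) (e (k + c))‖ * ‖inner ℂ (g k) (φ j)‖ :=
        Finset.sum_le_sum fun k _ => h1 k
    _ = ∑' j, ∑ k ∈ s, ‖inner ℂ (ψ j) (e (k + c))‖ * ‖inner ℂ (g k) (φ j)‖ :=
        (Summable.tsum_finsetSum fun k _ => hsk k).symm
    _ ≤ ∑' j, ‖φ j‖ * tl e (ψ j) M := by
        refine Summable.tsum_le_tsum (fun j => ?_) (summable_sum fun k _ => hsk k) hsb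
        refine (Real.sum_mul_le_sqrt_mul_sqrt s _ _).trans ?_
        rw [mul_comm]
        refine mul_le_mul ?_ ?_ (Real.sqrt_nonneg _) (norm_nonneg _)
        · refine (Real.sqrt_le_sqrt (hg.sum_inner_products_le (x := φ j))).trans ?_
          exact (Real.sqrt_sq (norm_nonneg _)).le
        · have h6 := sum_sq_le he (ψ j) s hsM
          have h7 : ∀ k, ‖inner ℂ (ψ j) (e (k + c))‖ = ‖inner ℂ (e (k + c)) (ψ j)‖ := fun k =>
            norm_inner_symm _ _
          simp only [h7]
          exact h6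

theorem kato : S_KATO := by
  intro E _ _ _ V K e hV1 hV2 hK he hVe
  obtain ⟨ι, φ, ψ, hs, hK⟩ := hK
  have hWV : ∀ x, star V (V x) = x := fun x => by
    have := congrArg (fun T : E →L[ℂ] E => T x) hV1
    simpa using this
  have hVW : ∀ x, V (star V x) = x := fun x => by
    have := congrArg (fun T : E →L[ℂ] E => T x) hV2
    simpa using this
  have hVi : ∀ x y : E, inner ℂ (V x) (V y) = inner ℂ x y := fun x y => by
    rw [← ContinuousLinearMap.adjoint_inner_right, ← ContinuousLinearMap.star_eq_adjoint, hWV]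
  have hWi : ∀ x y : E, inner ℂ (star V x) (star V y) = inner ℂ x y := fun x y => by
    rw [← hVi, hVW, hVW]
  have hVpi : ∀ (d : ℕ) (x y : E), inner ℂ ((V ^ d) x) ((V ^ d) y) = inner ℂ x y := by
    intro d
    induction d with
    | zero => intro x y; simp
    | succ d ih =>
      intro x y
      rw [pow_succ, mul_apply_eq_comp, mul_apply_eq_comp, ih, hVi]
  have hWpi : ∀ (d : ℕ) (x y : E), inner ℂ ((star V ^ d) x) ((star V ^ d) y) = inner ℂ x y := by
    intro d
    induction d with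
    | zero => intro x y; simp
    | succ d ih =>
      intro x y
      rw [pow_succ, mul_apply_eq_comp, mul_apply_eq_comp, ih, hWi]
  have hVWp : ∀ (d : ℕ) (x : E), (V ^ d) ((star V ^ d) x) = x := by
    intro d
    induction d with
    | zero => intro x; simp
    | succ d ih =>
      intro x
      rw [pow_succ, pow_succ', mul_apply_eq_comp, mul_apply_eq_comp, hVW,
        ih]
  have hWVp : ∀ (d : ℕ) (x : E), (star V ^ d) ((V ^ d) x) = x := by
    intro d
    induction d with
    | zero => intro x; simp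
    | succ d ih =>
      intro x
      rw [pow_succ, pow_succ', mul_apply_eq_comp, mul_apply_eq_comp, hWV,
        ih]
  have hnormVp : ∀ (d : ℕ) (x : E), ‖(V ^ d) x‖ = ‖x‖ := by
    intro d x
    rw [@norm_eq_sqrt_re_inner ℂ, @norm_eq_sqrt_re_inner ℂ, hVpi]
  have hnormWp : ∀ (d : ℕ) (x : E), ‖(star V ^ d) x‖ = ‖x‖ := by
    intro d x
    rw [@norm_eq_sqrt_re_inner ℂ, @norm_eq_sqrt_re_inner ℂ, hWpi]
  have horV : ∀ (d c : ℕ), Orthonormal ℂ fun k => (V ^ d) (e (k + c)) := by
    intro d c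
    have h := ortho_shift he c
    refine ⟨fun k => by rw [hnormVp]; exact h.1 k, fun i j hij => ?_⟩
    simp only
    rw [hVpi]
    exact h.2 hij
  have horW : ∀ (d c : ℕ), Orthonormal ℂ fun k => (star V ^ d) (V (e (k + c))) := by
    intro d c
    have h := ortho_shift he c
    refine ⟨fun k => ?_, fun i j hij => ?_⟩
    · rw [hnormWp]
      have := hnormVp 1 (e (k + c))
      rw [pow_one] at this
      rw [this]
      exact h.1 k
    · simp only
      rw [hWpi, hVi]
      exact h.2 hij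
  -- the tail function
  set η : ℕ → ℝ := fun M => ∑' j, ‖φ j‖ * tl e (ψ j) M with hη
  have hη0 : Tendsto η atTop (𝓝 0) := by
    have h1 := tendsto_tsum_of_dominated_convergence (𝓕 := atTop)
      (f := fun (M : ℕ) (j : ι) => ‖φ j‖ * tl e (ψ j) M) (g := fun _ => (0 : ℝ))
      (bound := fun j => ‖φ j‖ * ‖ψ j‖) hs
      (fun j => by simpa using (tl_tendsto e (ψ j)).const_mul ‖φ j‖)
      (Eventually.of_forall fun M j => by
        rw [Real.norm_of_nonneg (mul_nonneg (norm_nonneg _) (tl_nonneg _ _ _))]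
        exact mul_le_mul_of_nonneg_left (tl_le he _ _) (norm_nonneg _))
    simpa using h1
  have hηnn : ∀ M, 0 ≤ η M := fun M => tsum_nonneg fun j =>
    mul_nonneg (norm_nonneg _) (tl_nonneg _ _ _)
  -- `K e_m → 0`
  have hKe : Tendsto (fun m => K (e m)) atTop (𝓝 0) := by
    have h1 := tendsto_tsum_of_dominated_convergence (𝓕 := atTop)
      (f := fun (m : ℕ) (j : ι) => inner ℂ (ψ j) (e m) • φ j) (g := fun _ => (0 : E))
      (bound := fun j => ‖φ j‖ * ‖ψ j‖) hs
      (fun j => by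
        have h2 : Tendsto (fun m => inner ℂ (ψ j) (e m)) atTop (𝓝 0) := by
          have h3 := (he.inner_products_summable (x := ψ j)).tendsto_atTop_zero
          have h4 : Tendsto (fun m => ‖inner ℂ (e m) (ψ j)‖) atTop (𝓝 0) := by
            have h5 := (Real.continuous_sqrt.tendsto 0).comp h3
            rw [Real.sqrt_zero] at h5
            refine h5.congr fun m => ?_
            exact Real.sqrt_sq (norm_nonneg _)
          rw [tendsto_zero_iff_norm_tendsto_zero]
          refine h4.congr fun m => norm_inner_symm _ _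
        simpa using h2.smul_const (φ j))
      (Eventually.of_forall fun m j => by
        rw [norm_smul, mul_comm]
        refine mul_le_mul_of_nonneg_left ?_ (norm_nonneg _)
        have h2 := norm_inner_le_norm (𝕜 := ℂ) (ψ j) (e m)
        rwa [he.1, mul_one] at h2)
    rw [tsum_zero] at h1
    refine h1.congr fun m => (hK (e m)).tsum_eq
  -- `V^d e_m - e_{m+d} → 0`
  have hVd : ∀ d : ℕ, Tendsto (fun m => (V ^ d) (e m) - e (m + d)) atTop (𝓝 0) := by
    intro d
    induction d with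
    | zero => simp
    | succ d ih =>
      have h1 : Tendsto (fun m => V ((V ^ d) (e m) - e (m + d)) + K (e (m + d))) atTop
          (𝓝 (V 0 + 0)) :=
        ((V.continuous.tendsto 0).comp ih).add (hKe.comp (tendsto_add_atTop_nat d))
      rw [map_zero, add_zero] at h1
      refine h1.congr fun m => ?_
      rw [map_sub, hVe (m + d), pow_succ', mul_apply_eq_comp, ← add_assoc]
      abel
  -- the correlation
  set q : ℕ → ℕ → ℂ := fun d m => inner ℂ ((V ^ d) (e m)) (e (m + d)) with hq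
  have hqlim : ∀ d, Tendsto (q d) atTop (𝓝 1) := by
    intro d
    have h1 : ∀ m, q d m = 1 + inner ℂ ((V ^ d) (e m) - e (m + d)) (e (m + d)) := by
      intro m
      rw [inner_sub_left, inner_self_eq_norm_sq_to_K, he.1]
      simp [hq]
    have h2 : Tendsto (fun m => (inner ℂ ((V ^ d) (e m) - e (m + d)) (e (m + d)) : ℂ)) atTop
        (𝓝 0) := by
      rw [tendsto_zero_iff_norm_tendsto_zero]
      have h0 := (hVd d).norm
      rw [norm_zero] at h0
      refine squeeze_zero (fun _ => norm_nonneg _) (fun m => ?_) h0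
      have h3 := norm_inner_le_norm (𝕜 := ℂ) ((V ^ d) (e m) - e (m + d)) (e (m + d))
      rwa [he.1, mul_one] at h3
    have h3 := h2.const_add (1 : ℂ)
    rw [add_zero] at h3
    exact h3.congr fun m => (h1 m).symm
  have hstep : ∀ d m, q d (m + 1) - q d m =
      -(inner ℂ ((V ^ d) (e (m + 1))) (K (e (m + d)))) -
        inner ℂ ((V ^ d) (K (e m))) (V (e (m + d))) := by
    intro d m
    have h1 : q d m = inner ℂ ((V ^ d) (V (e m))) (V (e (m + d))) := by
      have : (V ^ d) (V (e m)) = V ((V ^ d) (e m)) := by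
        rw [← mul_apply_eq_comp, ← mul_apply_eq_comp, ← pow_succ,
          ← pow_succ']
      rw [this, hVi]
    have h2 : q d (m + 1) = inner ℂ ((V ^ d) (e (m + 1))) (e (m + d + 1)) := by
      simp only [hq]
      congr 2
      omega
    rw [h1, h2]
    nth_rewrite 1 [hVe m]
    rw [map_add, inner_add_left]
    have h3 : V (e (m + d)) = e (m + d + 1) + K (e (m + d)) := hVe (m + d)
    have h4 : (inner ℂ ((V ^ d) (e (m + 1))) (V (e (m + d))) : ℂ) =
        inner ℂ ((V ^ d) (e (m + 1))) (e (m + d + 1)) +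
          inner ℂ ((V ^ d) (e (m + 1))) (K (e (m + d))) := by
      rw [h3, inner_add_right]
    rw [h4]
    ring
  have hqq : ∀ d M m m', M ≤ m → m ≤ m' → ‖q d m' - q d m‖ ≤ 2 * η M := by
    intro d M m m' hM hmm
    have h1 : q d m' - q d m = ∑ k ∈ Finset.Ico m m', (q d (k + 1) - q d k) :=
      (Finset.sum_Ico_sub (q d) hmm).symm
    rw [h1]
    refine (norm_sum_le _ _).trans ?_
    have h2 : ∀ k ∈ Finset.Ico m m', ‖q d (k + 1) - q d k‖ ≤
        ‖inner ℂ ((V ^ d) (e (k + 1))) (K (e (k + d)))‖ +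
          ‖inner ℂ ((star V ^ d) (V (e (k + d)))) (K (e (k + 0)))‖ := by
      intro k _
      rw [hstep]
      refine (norm_sub_le _ _).trans ?_
      rw [norm_neg]
      refine add_le_add le_rfl (le_of_eq ?_)
      rw [norm_inner_symm, ← hVpi d ((star V ^ d) (V (e (k + d)))), hVWp, add_zero]
    refine (Finset.sum_le_sum h2).trans ?_
    rw [Finset.sum_add_distrib, two_mul]
    refine add_le_add ?_ ?_
    · refine est hs hK he (horV d 1) _ fun k hk => ?_
      have := (Finset.mem_Ico.mp hk).1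
      omega
    · refine est hs hK he (horW d d) _ fun k hk => ?_
      have := (Finset.mem_Ico.mp hk).1
      omega
  have hq1 : ∀ d M m, M ≤ m → ‖q d m - 1‖ ≤ 2 * η M := by
    intro d M m hM
    have h1 : Tendsto (fun m' => ‖q d m' - q d m‖) atTop (𝓝 ‖1 - q d m‖) :=
      ((hqlim d).sub_const _).norm
    rw [norm_sub_rev]
    refine le_of_tendsto h1 ?_
    filter_upwards [eventually_ge_atTop m] with m' hm'
    exact hqq d M m m' hM hm'
  -- the sequence
  set x : ℕ → E := fun n => (star V ^ n) (e n) with hx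
  have hxn : ∀ n, ‖x n‖ = 1 := fun n => by
    simp only [hx]
    rw [hnormWp, he.1]
  have hdist : ∀ M m d, M ≤ m → ‖x (m + d) - x m‖ ≤ Real.sqrt (4 * η M) := by
    intro M m d hM
    refine Real.le_sqrt_of_sq_le ?_
    have h1 : inner ℂ (x m) (x (m + d)) = q d m := by
      simp only [hx, hq]
      have h2 : (star V ^ m) (e m) = (star V ^ (m + d)) ((V ^ d) (e m)) := by
        rw [pow_add, mul_apply_eq_comp, hWVp]
      rw [h2, hWpi]
    rw [@norm_sub_sq ℂ, hxn, hxn]
    have h2 : inner ℂ (x (m + d)) (x m) = (starRingEnd ℂ) (q d m) := by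
      rw [← h1, inner_conj_symm]
    rw [h2]
    have h3 := hq1 d M m hM
    have h4 : (1 - (RCLike.re (K := ℂ) ((starRingEnd ℂ) (q d m)))) ≤ ‖q d m - 1‖ := by
      have h5 := Complex.abs_re_le_norm (q d m - 1)
      rw [Complex.sub_re, Complex.one_re] at h5
      have h6 := neg_abs_le ((q d m).re - 1)
      have h7 : RCLike.re (K := ℂ) ((starRingEnd ℂ) (q d m)) = (q d m).re := by simp
      rw [h7]
      linarith
    nlinarith
  have hcauchy : CauchySeq x := by
    refine cauchySeq_of_le_tendsto_0 (fun M => Real.sqrt (4 * η M)) ?_ ?_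
    · intro n m N hn hm
      rcases le_total n m with h | h
      · obtain ⟨d, rfl⟩ := Nat.exists_eq_add_of_le h
        rw [dist_comm, dist_eq_norm]
        exact hdist N n d hn
      · obtain ⟨d, rfl⟩ := Nat.exists_eq_add_of_le h
        rw [dist_eq_norm]
        exact hdist N m d hm
    · have h1 := (Real.continuous_sqrt.tendsto (4 * 0)).comp (hη0.const_mul 4)
      rw [mul_zero, Real.sqrt_zero] at h1
      exact h1
  obtain ⟨x₀, hx₀⟩ := cauchySeq_tendsto_of_complete hcauchy
  refine ⟨x₀, ?_, ?_⟩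
  · have h1 := hx₀.norm
    simp only [hxn] at h1
    exact tendsto_nhds_unique h1 tendsto_const_nhds |>.trans rfl
  · intro k hk
    have h1 : Tendsto (fun n => (V ^ k) (x (n + k))) atTop (𝓝 ((V ^ k) x₀)) :=
      ((V ^ k).continuous.tendsto x₀).comp (hx₀.comp (tendsto_add_atTop_nat k))
    have h2 : Tendsto (fun n => (inner ℂ (x n) ((V ^ k) (x (n + k))) : ℂ)) atTop
        (𝓝 (inner ℂ x₀ ((V ^ k) x₀))) := hx₀.inner h1
    have h3 : ∀ n, (inner ℂ (x n) ((V ^ k) (x (n + k))) : ℂ) = 0 := by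
      intro n
      have h4 : (V ^ k) (x (n + k)) = (star V ^ n) (e (n + k)) := by
        simp only [hx]
        rw [add_comm n k, pow_add, mul_apply_eq_comp, hVWp]
      rw [h4]
      simp only [hx]
      rw [hWpi]
      exact he.2 (by omega)
    simp only [h3] at h2
    exact tendsto_nhds_unique h2 tendsto_const_nhds |>.symm.trans (by rfl) |>.symm

end W54.FKM
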