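import Pool.Agent.W809.FKM.Stms

set_option autoImplicit false

open Filter Topology
open scoped ComplexConjugate

namespace W54.FKM

open Pool.Agent.W809.FKM

section Odd

variable {E : Type} [NormedAddCommGroup E] [InnerProductSpace ℂ E] [CompleteSpace E]
  {Θ : E ≃ₗᵢ⋆[ℂ] E}

lemma odd_star (hΘ : ∀ x, Θ (Θ x) = -x) {F : E →L[ℂ] E} (hF : OddT Θ F) (x : E) :
    (star F) (Θ x) = Θ (F x) := by
  have h1 := hF (Θ x)
  rw [hΘ, map_neg] at h1
  have h2 := congrArg Θ h1
  rw [hΘ, map_neg] at h2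
  exact (neg_injective h2).symm

lemma odd_inner (hΘ : ∀ x, Θ (Θ x) = -x) {F : E →L[ℂ] E} (hF : OddT Θ F) (x : E) :
    inner ℂ (Θ x) (F x) = 0 := by
  have h1 : inner ℂ (Θ x) (F x) = inner ℂ ((star F) (Θ x)) x := by
    rw [ContinuousLinearMap.star_eq_adjoint, ContinuousLinearMap.adjoint_inner_left]
  rw [odd_star hΘ hF, inner_T' Θ hΘ (F x) x] at h1
  have h2 : (2 : ℂ) * inner ℂ (Θ x) (F x) = 0 := by linear_combination h1
  exact (mul_eq_zero.mp h2).resolve_left two_ne_zero

end Odd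

theorem shiftb (hN : S_NID) : S_SHIFTB := by
  classical
  intro E _ _ _ Θ V L W Q hΘ hV hVo hL hLs hLt hC hQ hQs hQT hQf hW hWo hWL hWn hpar
  obtain ⟨hN1, -, hN3, -, -, -⟩ := hN E
  set T : E →L[ℂ] E := L * V * L + (1 - L) with hT
  have hQQ : ∀ x, Q (Q x) = Q x := fun x => by
    have := congrArg (fun A : E →L[ℂ] E => A x) hQ
    simpa using this
  have hLL : ∀ x, L (L x) = L x := fun x => by
    have := congrArg (fun A : E →L[ℂ] E => A x) hL
    simpa using this
  have hQi : ∀ x y, inner ℂ (Q x) y = inner ℂ x (Q y) := fun x y => by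
    rw [← ContinuousLinearMap.adjoint_inner_right, ← ContinuousLinearMap.star_eq_adjoint, hQs]
  -- the kernel
  have hker : LinearMap.ker (T : E →ₗ[ℂ] E) = LinearMap.range (Q : E →ₗ[ℂ] E) := by
    ext x
    constructor
    · intro hx
      exact ⟨x, (hQT x).mpr hx⟩
    · rintro ⟨y, rfl⟩
      exact (hQT (Q y)).mp (hQQ y)
  have hfd : FiniteDimensional ℂ (LinearMap.ker (T : E →ₗ[ℂ] E)) := by
    rw [hker]
    exact hQf
  set N := LinearMap.ker (T : E →ₗ[ℂ] E) with hNdef
  obtain ⟨k, hk⟩ : ∃ k, Module.finrank ℂ N = 2 * k + 1 := by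
    refine ⟨Module.finrank ℂ N / 2, ?_⟩
    have hpar' : Module.finrank ℂ N % 2 = 1 := hpar
    omega
  have hcard : Fintype.card (Fin (Module.finrank ℂ N)) = Fintype.card (Unit ⊕ (Fin k ⊕ Fin k)) := by
    simp
    omega
  set B : OrthonormalBasis (Unit ⊕ (Fin k ⊕ Fin k)) ℂ N :=
    (stdOrthonormalBasis ℂ N).reindex (Fintype.equivOfCardEq hcard) with hB
  have hBo : Orthonormal ℂ (fun i => (B i : E)) := B.orthonormal.comp_linearIsometry N.subtypeₗᵢ
  obtain ⟨a, ha⟩ : ∃ a : E, a = (B (Sum.inl ()) : E) := ⟨_, rfl⟩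
  obtain ⟨c, hc⟩ : ∃ c : Fin k → E, ∀ i, c i = (B (Sum.inr (Sum.inl i)) : E) := ⟨_, fun i => rfl⟩
  obtain ⟨d, hd⟩ : ∃ d : Fin k → E, ∀ i, d i = (B (Sum.inr (Sum.inr i)) : E) := ⟨_, fun i => rfl⟩
  have hBB : ∀ i j, inner ℂ ((B i : N) : E) ((B j : N) : E) = if i = j then (1 : ℂ) else 0 :=
    orthonormal_iff_ite.mp hBo
  have haa : inner ℂ a a = (1 : ℂ) := by rw [ha, hBB]; simp
  have hac : ∀ i, inner ℂ (c i) a = (0 : ℂ) := fun i => by rw [ha, hc, hBB]; simp
  have had : ∀ i, inner ℂ (d i) a = (0 : ℂ) := fun i => by rw [ha, hd, hBB]; simp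
  have hcc : ∀ i j, inner ℂ (c i) (c j) = if i = j then (1 : ℂ) else 0 := fun i j => by
    rw [hc, hc, hBB]; simp
  have hdd : ∀ i j, inner ℂ (d i) (d j) = if i = j then (1 : ℂ) else 0 := fun i j => by
    rw [hd, hd, hBB]; simp
  have hcd : ∀ i j, inner ℂ (c i) (d j) = (0 : ℂ) := fun i j => by
    rw [hc, hd, hBB]; simp
  have hdc : ∀ i j, inner ℂ (d i) (c j) = (0 : ℂ) := fun i j => by
    rw [hc, hd, hBB]; simp
  have haN : T a = 0 := by rw [ha]; exact (B (Sum.inl ())).2
  have hcN : ∀ i, T (c i) = 0 := fun i => by rw [hc]; exact (B _).2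
  have hdN : ∀ i, T (d i) = 0 := fun i => by rw [hd]; exact (B _).2
  -- `Q` as a sum
  have hQsum : ∀ x, Q x = inner ℂ a x • a +
      ∑ i, (inner ℂ (c i) x • c i + inner ℂ (d i) x • d i) := by
    intro x
    have hmem : Q x ∈ N := (hQT (Q x)).mp (hQQ x)
    have h1 := B.sum_repr' (⟨Q x, hmem⟩ : N)
    have h2 := congrArg (fun v : N => (v : E)) h1
    simp only [Fintype.sum_sum_type, Finset.univ_unique, Finset.sum_singleton] at h2
    rw [Finset.sum_add_distrib]
    have h3 : ∀ i, inner ℂ (B i) (⟨Q x, hmem⟩ : N) = inner ℂ ((B i : N) : E) x := by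
      intro i
      have h4 : inner ℂ (B i) (⟨Q x, hmem⟩ : N) = inner ℂ ((B i : N) : E) (Q x) := rfl
      rw [h4, ← hQi, (hQT _).mpr (B i).2]
    simp only [h3] at h2
    push_cast at h2
    simp only [hc, hd, ha]
    exact h2.symm
  -- the operator `J`
  set J : E →L[ℂ] E := ∑ i, (InnerProductSpace.rankOne ℂ (Θ (d i)) (c i) -
    InnerProductSpace.rankOne ℂ (Θ (c i)) (d i)) with hJ
  have hJx : ∀ x, J x = ∑ i, (inner ℂ (c i) x • Θ (d i) - inner ℂ (d i) x • Θ (c i)) := by
    intro x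
    rw [hJ, sum_apply]
    rfl
  have hJsx : ∀ x, (star J) x =
      ∑ i, (inner ℂ (Θ (d i)) x • c i - inner ℂ (Θ (c i)) x • d i) := by
    intro x
    rw [hJ, star_sum, sum_apply]
    refine Finset.sum_congr rfl fun i _ => ?_
    rw [star_sub, ContinuousLinearMap.star_eq_adjoint, ContinuousLinearMap.star_eq_adjoint,
      InnerProductSpace.adjoint_rankOne, InnerProductSpace.adjoint_rankOne]
    rfl
  have hJo : OddT Θ J := by
    intro ψ
    rw [hJx, hJsx, map_sum]
    refine Finset.sum_congr rfl fun i _ => ?_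
    rw [map_sub, Θ.map_smulₛₗ, Θ.map_smulₛₗ, inner_T' Θ hΘ (d i), inner_T' Θ hΘ (c i), map_neg,
      map_neg, inner_conj_symm, inner_conj_symm, neg_smul, neg_smul]
    abel
  have hJd : ∀ j, (star J) (Θ (d j)) = c j := by
    intro j
    rw [hJsx]
    simp only [inner_T, hdd, hdc, zero_smul, sub_zero, ite_smul, one_smul]
    simp
  have hJc : ∀ j, (star J) (Θ (c j)) = -d j := by
    intro j
    rw [hJsx]
    simp only [inner_T, hcc, hcd, zero_smul, zero_sub, ite_smul, one_smul]
    simp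
  have hJJ : ∀ x, (star J) (J x) = Q x - inner ℂ a x • a := by
    intro x
    rw [hJx, map_sum, hQsum]
    simp only [map_sub, map_smul, hJd, hJc, smul_neg, sub_neg_eq_add]
    abel
  -- the kernel of `W`
  have hWW : ∀ x, (star W) (W x) = x - Q x := fun x => by
    have := congrArg (fun A : E →L[ℂ] E => A x) hW
    simpa using this
  have hWker : ∀ y, T y = 0 → W y = 0 := by
    intro y hy
    have h1 : inner ℂ (W y) (W y) = (0 : ℂ) := by
      rw [← ContinuousLinearMap.adjoint_inner_right, ← ContinuousLinearMap.star_eq_adjoint, hWW,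
        (hQT y).mpr hy, sub_self, inner_zero_right]
    exact inner_self_eq_zero.mp h1
  have hWsT : ∀ y, T y = 0 → (star W) (Θ y) = 0 := by
    intro y hy
    rw [odd_star hΘ hWo, hWker y hy, map_zero]
  have hWJ : ∀ x, (star W) (J x) = 0 := by
    intro x
    rw [hJx, map_sum]
    refine Finset.sum_eq_zero fun i _ => ?_
    rw [map_sub, map_smul, map_smul, hWsT _ (hdN i), hWsT _ (hcN i), smul_zero, smul_zero,
      sub_zero]
  have hJW : ∀ x, (star J) (W x) = 0 := by
    intro x
    rw [hJsx]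
    refine Finset.sum_eq_zero fun i _ => ?_
    have h1 : ∀ y, T y = 0 → inner ℂ (Θ y) (W x) = (0 : ℂ) := by
      intro y hy
      rw [← ContinuousLinearMap.adjoint_inner_left, ← ContinuousLinearMap.star_eq_adjoint,
        hWsT y hy, inner_zero_left]
    rw [h1 _ (hdN i), h1 _ (hcN i), zero_smul, zero_smul, sub_zero]
  set W' : E →L[ℂ] E := W + J with hW'
  have hW'o : OddT Θ W' := hWo.add hJo
  have hW'W' : ∀ x, (star W') (W' x) = x - inner ℂ a x • a := by
    intro x
    have h1 : (star W') (W' x) = (star W) (W x) + (star W) (J x) + ((star J) (W x) +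
        (star J) (J x)) := by
      rw [hW', star_add, add_apply, add_apply, map_add, map_add]
    rw [h1, hWW, hWJ, hJW, hJJ]
    abel
  have hW'i : ∀ x y, inner ℂ (W' x) (W' y) = inner ℂ x y - inner ℂ a y * inner ℂ x a := by
    intro x y
    rw [← ContinuousLinearMap.adjoint_inner_right, ← ContinuousLinearMap.star_eq_adjoint, hW'W',
      inner_sub_right, inner_smul_right]
  have hW'a : W' a = 0 := by
    have h1 : inner ℂ (W' a) (W' a) = (0 : ℂ) := by
      rw [hW'i, haa]
      ring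
    exact inner_self_eq_zero.mp h1
  have hW'Θ : (star W') (Θ a) = 0 := by
    rw [odd_star hΘ hW'o, hW'a, map_zero]
  -- the sequence
  set e : ℕ → E := fun n => (W' ^ n) (Θ a) with he
  have he0 : e 0 = Θ a := by simp [he]
  have hes : ∀ n, e (n + 1) = W' (e n) := by
    intro n
    simp only [he]
    rw [pow_succ', mul_apply_eq_comp]
  have hae : ∀ n, inner ℂ a (e n) = (0 : ℂ) := by
    intro n
    have h1 := odd_inner hΘ (hW'o.pow n) (Θ a)
    rw [hΘ, inner_neg_left, neg_eq_zero] at h1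
    exact h1
  have h0e : ∀ m, inner ℂ (e 0) (e (m + 1)) = (0 : ℂ) := by
    intro m
    rw [he0, hes, ← ContinuousLinearMap.adjoint_inner_left, ← ContinuousLinearMap.star_eq_adjoint,
      hW'Θ, inner_zero_left]
  have hee : ∀ n m, inner ℂ (e n) (e m) = if n = m then (1 : ℂ) else 0 := by
    intro n
    induction n with
    | zero =>
      intro m
      cases m with
      | zero => rw [he0, inner_T, haa]; simp
      | succ m => rw [h0e]; simp
    | succ n ih =>
      intro m
      cases m with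
      | zero =>
        rw [← inner_conj_symm, h0e]
        simp
      | succ m =>
        rw [hes, hes, hW'i, hae, zero_mul, sub_zero, ih]
        simp
  have hLker : ∀ y, T y = 0 → L y = y := by
    intro y hy
    have h1 : L (V (L y)) + (y - L y) = 0 := hy
    have h2 := congrArg L h1
    rw [map_add, map_sub, hLL, hLL, sub_self, add_zero, map_zero] at h2
    rw [h2, zero_add, sub_eq_zero] at h1
    exact h1.symm
  have hLJ : ∀ x, L (J x) = J x := by
    intro x
    rw [hJx, map_sum]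
    refine Finset.sum_congr rfl fun i _ => ?_
    rw [map_sub, map_smul, map_smul, hLt, hLt, hLker _ (hdN i), hLker _ (hcN i)]
  have hLe : ∀ n, L (e n) = e n := by
    intro n
    induction n with
    | zero => rw [he0, hLt, hLker a haN]
    | succ n ih =>
      have h1 : W (L (e n)) = L (W (e n)) := by
        have := congrArg (fun A : E →L[ℂ] E => A (e n)) hWL
        simpa using this
      rw [hes, hW', add_apply, map_add, hLJ, ← h1, ih]
  refine ⟨(1 - L) * V * L + ((-1 : E →L[ℂ] E) * (W - T) + (-1 : E →L[ℂ] E) * J), e, ?_, ?_, ?_⟩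
  · refine hN3 _ _ hC (hN3 _ _ (hN1 _ _ hWn) (hN1 _ _ ?_))
    refine ⟨Fin k ⊕ Fin k, Sum.elim (fun i => Θ (d i)) (fun i => -Θ (c i)), Sum.elim c d, ?_, ?_⟩
    · exact (hasSum_fintype _).summable
    · intro x
      have h1 := hasSum_fintype (fun j : Fin k ⊕ Fin k =>
        inner ℂ ((Sum.elim c d : Fin k ⊕ Fin k → E) j) x •
          (Sum.elim (fun i => Θ (d i)) (fun i => -Θ (c i)) : Fin k ⊕ Fin k → E) j)
      convert h1 using 1
      rw [Fintype.sum_sum_type, hJx, ← Finset.sum_add_distrib]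
      refine Finset.sum_congr rfl fun i _ => ?_
      simp [sub_eq_add_neg]
  · rw [orthonormal_iff_ite]
    exact hee
  · intro n
    rw [hes]
    have h1 : T (e n) = L (V (L (e n))) + (e n - L (e n)) := rfl
    have h2 : ((1 - L) * V * L : E →L[ℂ] E) (e n) = V (L (e n)) - L (V (L (e n))) := rfl
    have h3 : ((-1 : E →L[ℂ] E) * (W - T) + (-1 : E →L[ℂ] E) * J) (e n) =
        -(W (e n) - T (e n)) + -(J (e n)) := by
      simp
    have h4 : ((1 - L) * V * L + ((-1 : E →L[ℂ] E) * (W - T) + (-1 : E →L[ℂ] E) * J)) (e n) =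
        ((1 - L) * V * L : E →L[ℂ] E) (e n) +
          ((-1 : E →L[ℂ] E) * (W - T) + (-1 : E →L[ℂ] E) * J) (e n) := rfl
    rw [h4, h2, h3, h1, hLe, hW', add_apply]
    abel

end W54.FKM
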