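import Pool.Agent.W809.FKM.Stms
import Pool.Agent.H792R3.SpecMeas

set_option autoImplicit false

open Filter Topology MeasureTheory Set
open scoped ComplexConjugate

namespace W54.FKM

open Pool.Agent.W809.FKM (S_EXPC S_SPEC IsSpecMeas eA)

/-- the circle `ℝ/ℤ` -/
abbrev Ci := AddCircle (1 : ℝ)

lemma fourier_int_zero {n : ℤ} (hn : n ≠ 0) :
    ∫ x : Ci, (fourier n x : ℂ) ∂AddCircle.haarAddCircle = 0 := by
  have h := integral_add_right_eq_self (μ := AddCircle.haarAddCircle (T := (1 : ℝ)))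
    (fun x : Ci => (fourier n x : ℂ)) (((1 / 2 / n : ℝ)) : Ci)
  simp only [fourier_add_half_inv_index hn (one_pos : (0 : ℝ) < 1), integral_neg] at h
  have h2 : (2 : ℂ) * ∫ x : Ci, (fourier n x : ℂ) ∂AddCircle.haarAddCircle = 0 := by
    linear_combination -h
  exact (mul_eq_zero.mp h2).resolve_left two_ne_zero

lemma ext_of_fourier (ν : Measure Ci) [IsProbabilityMeasure ν]
    (h : ∀ n : ℤ, n ≠ 0 → ∫ x, (fourier n x : ℂ) ∂ν = 0) : ν = AddCircle.haarAddCircle := by
  have hint : ∀ (ρ : Measure Ci) [IsFiniteMeasure ρ] (F : C(Ci, ℂ)), Integrable F ρ := by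
    intro ρ _ F
    exact F.continuous.integrable_of_hasCompactSupport (HasCompactSupport.of_compactSpace F)
  -- the difference as a functional
  let Λ : C(Ci, ℂ) →ₗ[ℂ] ℂ :=
    { toFun := fun F => ∫ x, F x ∂ν - ∫ x, F x ∂AddCircle.haarAddCircle
      map_add' := fun F G => by
        simp only [ContinuousMap.add_apply]
        rw [integral_add (hint ν F) (hint ν G), integral_add (hint _ F) (hint _ G)]
        ring
      map_smul' := fun c F => by
        simp only [ContinuousMap.smul_apply, RingHom.id_apply]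
        rw [integral_smul, integral_smul, ← smul_sub] }
  have hb : ∀ F : C(Ci, ℂ), ‖Λ F‖ ≤ 2 * ‖F‖ := by
    intro F
    have h1 : ∀ (ρ : Measure Ci) [IsProbabilityMeasure ρ], ‖∫ x, F x ∂ρ‖ ≤ ‖F‖ := by
      intro ρ _
      have := norm_integral_le_of_norm_le_const (μ := ρ) (f := fun x => F x) (C := ‖F‖)
        (Eventually.of_forall fun x => F.norm_coe_le_norm x)
      simpa using this
    have h2 := norm_sub_le (∫ x, F x ∂ν) (∫ x, F x ∂AddCircle.haarAddCircle)
    have h3 := h1 ν
    have h4 := h1 AddCircle.haarAddCircle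
    change ‖∫ x, F x ∂ν - ∫ x, F x ∂AddCircle.haarAddCircle‖ ≤ _
    linarith
  let Λc : C(Ci, ℂ) →L[ℂ] ℂ := Λ.mkContinuous 2 hb
  have hker : ∀ F : C(Ci, ℂ), Λc F = 0 := by
    have h1 : Submodule.span ℂ (range (@fourier (1 : ℝ))) ≤ LinearMap.ker (Λc : C(Ci, ℂ) →ₗ[ℂ] ℂ) := by
      rw [Submodule.span_le]
      rintro _ ⟨n, rfl⟩
      change ∫ x, (fourier n x : ℂ) ∂ν - ∫ x : Ci, (fourier n x : ℂ) ∂AddCircle.haarAddCircle = 0
      by_cases hn : n = 0
      · subst hn
        simp
      · rw [h n hn, fourier_int_zero hn, sub_zero]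
    have h2 := Submodule.topologicalClosure_minimal _ h1 Λc.isClosed_ker
    rw [span_fourier_closure_eq_top] at h2
    intro F
    exact h2 (Submodule.mem_top (x := F))
  apply ext_of_forall_integral_eq_of_IsFiniteMeasure
  intro f
  let F : C(Ci, ℂ) := ⟨fun x => (f x : ℂ), by fun_prop⟩
  have h1 : ∫ x, F x ∂ν - ∫ x, F x ∂AddCircle.haarAddCircle = 0 := hker F
  have h2 : ∀ ρ : Measure Ci, ∫ x, F x ∂ρ = ((∫ x, f x ∂ρ : ℝ) : ℂ) := fun ρ => integral_ofReal
  rw [h2, h2, sub_eq_zero] at h1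
  exact_mod_cast h1

/-- the pushforward criterion -/
lemma ac_of_push (μ : Measure ℝ) (g : ℝ → ℝ) (hg : Differentiable ℝ g)
    (h : μ.map (fun t => ((g t : ℝ) : Ci)) = AddCircle.haarAddCircle) : μ ≪ volume := by
  intro N hN
  have hgm : Measurable (fun t => ((g t : ℝ) : Ci)) :=
    (AddCircle.continuous_mk' (p := (1 : ℝ))).measurable.comp hg.continuous.measurable
  have h1 : volume (g '' N) = 0 :=
    addHaar_image_eq_zero_of_differentiableOn_of_addHaar_eq_zero volume hg.differentiableOn hN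
  set Z := toMeasurable volume (g '' N) with hZ
  have hZm : MeasurableSet Z := measurableSet_toMeasurable _ _
  have hZ0 : volume Z = 0 := by rw [hZ, measure_toMeasurable, h1]
  set Z' : Set ℝ := ⋃ n : ℤ, (fun t : ℝ => t + n) ⁻¹' Z with hZ'
  have hZ'm : MeasurableSet Z' := MeasurableSet.iUnion fun n => by
    exact (measurable_id.add_const (n : ℝ)) hZm
  have hZ'0 : volume Z' = 0 := by
    rw [hZ', measure_iUnion_null_iff]
    intro n
    rw [measure_preimage_add_right]
    exact hZ0
  have hper : ∀ t t' : ℝ, ((t : ℝ) : Ci) = (t' : Ci) → t ∈ Z' → t' ∈ Z' := by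
    intro t t' htt ht
    obtain ⟨n, hn⟩ := mem_iUnion.mp ht
    have h2 : (((t - t' : ℝ)) : Ci) = 0 := by
      rw [AddCircle.coe_sub, htt, sub_self]
    obtain ⟨k, hk⟩ := AddCircle.coe_eq_zero_iff (1 : ℝ) |>.mp h2
    refine mem_iUnion.mpr ⟨n + k, ?_⟩
    have h3 : t' + ((n + k : ℤ) : ℝ) = t + n := by
      rw [zsmul_eq_mul, mul_one] at hk
      push_cast
      linarith
    simp only [mem_preimage] at hn ⊢
    rw [h3]
    exact hn
  let σ : Ci → ℝ := fun θ => ((AddCircle.measurableEquivIoc (1 : ℝ) 0 θ : Ioc (0 : ℝ) (0 + 1)) : ℝ)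
  have hσm : Measurable σ :=
    measurable_subtype_coe.comp (AddCircle.measurableEquivIoc (1 : ℝ) 0).measurable
  have hσ : ∀ θ : Ci, ((σ θ : ℝ) : Ci) = θ := by
    intro θ
    exact (AddCircle.equivIoc (1 : ℝ) 0).symm_apply_apply θ
  have hW : MeasurableSet (σ ⁻¹' Z') := hσm hZ'm
  have hW0 : (AddCircle.haarAddCircle : Measure Ci) (σ ⁻¹' Z') = 0 := by
    have h2 : (AddCircle.haarAddCircle : Measure Ci) = volume := by
      rw [AddCircle.volume_eq_smul_haarAddCircle, ENNReal.ofReal_one, one_smul]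
    rw [h2, ← (AddCircle.measurePreserving_mk (1 : ℝ) 0).measure_preimage hW.nullMeasurableSet]
    refine le_antisymm ((Measure.restrict_apply_le _ _).trans ?_) zero_le
    refine (measure_mono ?_).trans hZ'0.le
    intro t ht
    exact hper _ _ (hσ _) ht
  rw [← h, Measure.map_apply hgm hW] at hW0
  refine measure_mono_null ?_ hW0
  intro t ht
  have h3 : g t ∈ Z' := by
    refine mem_iUnion.mpr ⟨0, ?_⟩
    simp only [mem_preimage, Int.cast_zero, add_zero]
    exact subset_toMeasurable _ _ (mem_image_of_mem g ht)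
  exact hper _ _ (hσ _).symm h3

theorem spec (hE : S_EXPC) : S_SPEC := by
  intro E _ _ _ H g a b x hH hg hab hx hn
  obtain ⟨μ, hμf, hμ⟩ := Pool.Agent.H792R3.exists_specMeas H hH x
  have hgc : Continuous g := hg.continuous
  have hgd : Differentiable ℝ g := hg.differentiable (by simp)
  -- the total mass
  have hmass : μ univ = 1 := by
    have h1 := (hμ (fun _ => (1 : ℝ)) continuous_const).2
    rw [cfc_const_one ℝ H, one_apply_eq_self, inner_self_eq_norm_sq_to_K, hx] at h1
    simp only [integral_const, smul_eq_mul, mul_one] at h1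
    have h2 : μ.real univ = 1 := by
      have h3 : ((μ.real univ : ℝ) : ℂ) = 1 := by simpa using h1
      exact_mod_cast h3
    rw [← ENNReal.ofReal_toReal (measure_ne_top μ univ)]
    change ENNReal.ofReal (μ.real univ) = 1
    rw [h2, ENNReal.ofReal_one]
  -- the Fourier coefficients
  have hcs : ∀ n : ℕ, 1 ≤ n → ∫ t, Real.cos (2 * Real.pi * (n * g t)) ∂μ = 0 ∧
      ∫ t, Real.sin (2 * Real.pi * (n * g t)) ∂μ = 0 := by
    intro n hn1
    have h1 := hn n hn1
    have h2 : (eA (cfc g H)) ^ n = eA (cfc (fun t => (n : ℝ) * g t) H) := by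
      unfold eA
      let _ : NormedAlgebra ℚ (E →L[ℂ] E) := NormedAlgebra.restrictScalars ℚ ℂ (E →L[ℂ] E)
      rw [← NormedSpace.exp_nsmul, cfc_const_mul (n : ℝ) g H hgc.continuousOn,
        Nat.cast_smul_eq_nsmul, smul_comm]
    rw [h2, hE E H (fun t => (n : ℝ) * g t) hH (by fun_prop)] at h1
    rw [add_apply, smul_apply, inner_add_right,
      inner_smul_right, ← (hμ (fun t => Real.cos (2 * Real.pi * ((n : ℝ) * g t)))
        (by fun_prop)).2, ← (hμ (fun t => Real.sin (2 * Real.pi * ((n : ℝ) * g t)))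
        (by fun_prop)).2] at h1
    have h3 := congrArg Complex.re h1
    have h4 := congrArg Complex.im h1
    simp at h3 h4
    exact ⟨h3, h4⟩
  have hgm : Measurable (fun t => ((g t : ℝ) : Ci)) :=
    (AddCircle.continuous_mk' (p := (1 : ℝ))).measurable.comp hgc.measurable
  have hprob : IsProbabilityMeasure μ := ⟨hmass⟩
  have hprob' : IsProbabilityMeasure (μ.map (fun t => ((g t : ℝ) : Ci))) :=
    Measure.isProbabilityMeasure_map hgm.aemeasurable
  have hpos : ∀ n : ℕ, 1 ≤ n →
      ∫ θ, (fourier (n : ℤ) θ : ℂ) ∂(μ.map (fun t => ((g t : ℝ) : Ci))) = 0 := by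
    intro n hn1
    rw [integral_map hgm.aemeasurable (by
      exact (fourier (n : ℤ)).continuous.aestronglyMeasurable)]
    obtain ⟨h1, h2⟩ := hcs n hn1
    have h3 : ∀ t : ℝ, (fourier (n : ℤ) ((g t : ℝ) : Ci) : ℂ) =
        ((Real.cos (2 * Real.pi * (n * g t)) : ℝ) : ℂ) +
          ((Real.sin (2 * Real.pi * (n * g t)) : ℝ) : ℂ) * Complex.I := by
      intro t
      rw [fourier_coe_apply, Complex.ofReal_cos, Complex.ofReal_sin, ← Complex.exp_mul_I]
      congr 1
      push_cast
      ring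
    simp only [h3]
    rw [integral_add, integral_mul_const, integral_complex_ofReal, integral_complex_ofReal, h1, h2]
    · simp
    · exact (hμ (fun t => Real.cos (2 * Real.pi * (n * g t))) (by fun_prop)).1.ofReal
    · exact (hμ (fun t => Real.sin (2 * Real.pi * (n * g t))) (by fun_prop)).1.ofReal.mul_const _
  have hpush : μ.map (fun t => ((g t : ℝ) : Ci)) = AddCircle.haarAddCircle := by
    refine ext_of_fourier _ fun n hn0 => ?_
    rcases lt_or_gt_of_ne hn0 with hneg | hpos'
    · obtain ⟨k, hk⟩ : ∃ k : ℕ, n = -(k : ℤ) := ⟨n.natAbs, by omega⟩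
      subst hk
      simp only [fourier_neg]
      rw [integral_conj, hpos k (by omega), map_zero]
    · obtain ⟨k, hk⟩ : ∃ k : ℕ, n = (k : ℤ) := ⟨n.natAbs, by omega⟩
      subst hk
      exact hpos k (by omega)
  refine ⟨μ, ⟨hμf, hμ⟩, ac_of_push μ g hgd hpush, ?_⟩
  -- the mass in the interval
  have hzero : μ (Ioo a b)ᶜ = 0 := by
    have h0 : (AddCircle.haarAddCircle : Measure Ci) {(0 : Ci)} = 0 := by
      have h2 : (AddCircle.haarAddCircle : Measure Ci) = volume := by
        rw [AddCircle.volume_eq_smul_haarAddCircle, ENNReal.ofReal_one, one_smul]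
      rw [h2]
      have h3 := (AddCircle.measurePreserving_mk (1 : ℝ) 0).measure_preimage
        (s := {(0 : Ci)}) (measurableSet_singleton _).nullMeasurableSet
      rw [← h3]
      refine le_antisymm ((Measure.restrict_apply_le _ _).trans ?_) zero_le
      have h4 : ((↑) : ℝ → Ci) ⁻¹' {(0 : Ci)} ⊆ ⋃ n : ℤ, {(n : ℝ)} := by
        intro t ht
        obtain ⟨k, hk⟩ := (AddCircle.coe_eq_zero_iff (1 : ℝ)).mp ht
        rw [zsmul_eq_mul, mul_one] at hk
        exact mem_iUnion.mpr ⟨k, hk.symm⟩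
      refine (measure_mono h4).trans ?_
      rw [measure_iUnion_null_iff.mpr fun n => ?_]
      simp
    rw [← hpush, Measure.map_apply hgm (measurableSet_singleton _)] at h0
    refine measure_mono_null ?_ h0
    intro t ht
    rcases hab t ht with h1 | h1
    · simp [h1]
    · have h5 : ((1 : ℝ) : Ci) = 0 := AddCircle.coe_period (1 : ℝ)
      simp [h1, h5]
  have h1 : μ univ ≤ μ (Ioo a b) + μ (Ioo a b)ᶜ := by
    rw [← union_compl_self (Ioo a b)]
    exact measure_union_le _ _
  rw [hzero, hmass, add_zero] at h1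
  exact lt_of_lt_of_le one_pos h1

end W54.FKM
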